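import Pool.Agent.helper20.SOL.Spec

/-!
# Row ODA: good edges
-/

set_option autoImplicit false

namespace Pool.Agent.SOL

open Pool.Agent.helper54.SOG Finset

open scoped BigOperators

theorem ODA_one {n n' : ℕ} {S : Set (Vec n)} {S' : Set (Vec n')} (ψ : gph S ≃g gph S')
    (hS : SLs S) (hS' : SLs S') {x y : Vec n} (hx : x ∈ S) (hy : y ∈ S) (hxy : x - y ∈ S)
    (hG : Good S x y) : up ψ (y - x) = up ψ y - up ψ x := by
  have hw' : up ψ y - up ψ x ∈ S' := hS'.sub_comm ((up_adj hS hS' ψ hx hy).2 hxy)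
  obtain ⟨w, hw, hfw⟩ := up_surj ψ hw'
  have hyw : y - w ∈ S := (up_adj hS hS' ψ hy hw).1 (by
    rw [hfw, sub_sub_cancel]
    exact up_mem ψ hx)
  by_contra hne
  have h1 : w ≠ x := by
    rintro rfl
    apply hS'.two _ (up_mem ψ hx)
    have : up ψ w + up ψ w = up ψ y := by
      have h := hfw
      rw [eq_sub_iff_add_eq] at h
      exact h
    rw [this]
    exact up_mem ψ hy
  have h2 : x - w ∉ S := by
    intro h
    have h3 := hS'.sub_comm ((up_adj hS hS' ψ hx hw).2 h)
    rw [hfw] at h3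
    apply hS'.nc _ hw' _ (up_mem ψ hx) h3
    rw [sub_add_cancel]
    exact up_mem ψ hy
  have h3 : w ≠ y - x := by
    rintro rfl
    exact hne hfw
  obtain ⟨v, hv, hvy, hxv, hwv⟩ := hG w hw hyw h1 h2 h3
  have h4 := (up_adj hS hS' ψ hw hv).2 hwv
  rw [hfw] at h4
  exact hvy (up_inj ψ hv hy (hS'.uc _ (up_mem ψ hy) _ (up_mem ψ hx) hw' _ (up_mem ψ hv)
    ((up_adj hS hS' ψ hx hv).2 hxv) h4))

theorem ODA_neg {n : ℕ} {S : Set (Vec n)} (hS : SLs S) {x y : Vec n} (hG : Good S x y) :
    Good S (-x) (-y) := by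
  intro w hw h1 h2 h3 h4
  obtain ⟨v, hv, hvy, hxv, hwv⟩ := hG (-w) (hS.neg _ hw)
    (by
      have := hS.neg _ h1
      rwa [show -(-y - w) = y - -w by abel] at this)
    (by
      intro h
      apply h2
      rw [← h, neg_neg])
    (by
      intro h
      apply h3
      have := hS.neg _ h
      rwa [show -(x - -w) = -x - w by abel] at this)
    (by
      intro h
      apply h4
      rw [← neg_neg w, h]
      abel)
  refine ⟨-v, hS.neg _ hv, fun h => hvy (neg_injective h), ?_, ?_⟩
  · have := hS.neg _ hxv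
    rwa [show -(x - v) = -x - -v by abel] at this
  · have := hS.neg _ hwv
    rwa [show -(-w - v) = w - -v by abel] at this

theorem ODA : ODA_stmt := by
  intro n n' S S' ψ hS hS'
  refine ⟨fun x hx y hy hxy hG => ODA_one ψ hS hS' hx hy hxy hG, ?_, ?_⟩
  · intro x hx y hy hxy hG hG'
    have h1 := ODA_one ψ hS hS' hx hy hxy hG
    have h2 : Good S (-x) (y - x) := by
      have := ODA_neg hS hG'
      rwa [neg_sub] at this
    have h3 := ODA_one ψ hS hS' (hS.neg _ hx) (hS.sub_comm hxy)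
      (by
        have := hS.neg _ hy
        rwa [show -y = -x - (y - x) by abel] at this) h2
    rw [show y - x - -x = y by abel, h1] at h3
    have h4 : up ψ (-x) = up ψ y - up ψ x - up ψ y := by
      have h5 := h3
      rw [eq_sub_iff_add_eq] at h5
      rw [← h5]
      abel
    rw [h4]
    abel
  · intro x hx y hy hxy hneg
    have hyx := hS.sub_comm hxy
    have h1 : up ψ y - up ψ (y - x) ∈ S' := (up_adj hS hS' ψ hy hyx).2 (by
      rw [sub_sub_cancel]
      exact hx)
    have h2 : up ψ (-x) - up ψ (y - x) ∈ S' := (up_adj hS hS' ψ (hS.neg _ hx) hyx).2 (by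
      have := hS.neg _ hy
      rwa [show -y = -x - (y - x) by abel] at this)
    rw [hneg] at h2
    refine hS'.uc (up ψ y - up ψ x) (hS'.sub_comm ((up_adj hS hS' ψ hx hy).2 hxy)) (-up ψ x)
      (by rw [← hneg]; exact up_mem ψ (hS.neg _ hx)) ?_ _ (up_mem ψ hyx) h2 ?_
    · rw [show up ψ y - up ψ x - -up ψ x = up ψ y by abel]
      exact up_mem ψ hy
    · rw [show up ψ y - up ψ x - -up ψ x - up ψ (y - x) = up ψ y - up ψ (y - x) by abel]
      exact h1

end Pool.Agent.SOL
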