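import Pool.Agent.helper20.SOL.SpecE

/-!
# Row EMP: the empty graphs
-/

set_option autoImplicit false

namespace Pool.Agent.SOL

open Pool.Agent.helper54.SOG Finset

open scoped BigOperators

theorem EMP_dot (x y : Vec 8) : cv x ⬝ᵥ cv y = ((dp x y : ℤ) : ℝ) := by
  unfold dp cv dotProduct
  push_cast
  rfl

/-- at most eight mutually orthogonal vectors of norm `8` -/
theorem EMP_card (S : Finset (Vec 8)) (h1 : ∀ a ∈ S, dp a a = 8)
    (h2 : ∀ a ∈ S, ∀ b ∈ S, a ≠ b → dp a b = 0) : S.card ≤ 8 := by
  have hli : LinearIndependent ℝ (fun a : S => cv (a : Vec 8)) := by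
    rw [Fintype.linearIndependent_iff]
    intro g hg b
    have h3 : (∑ a : S, g a • cv (a : Vec 8)) ⬝ᵥ cv (b : Vec 8) = 0 := by
      rw [hg, zero_dotProduct]
    rw [sum_dotProduct] at h3
    rw [Finset.sum_eq_single b] at h3
    · rw [smul_dotProduct, EMP_dot, h1 _ b.2, smul_eq_mul] at h3
      have h4 : (((8 : ℤ) : ℝ)) ≠ 0 := by norm_num
      exact (mul_eq_zero.1 h3).resolve_right h4
    · intro a _ hab
      rw [smul_dotProduct, EMP_dot, h2 _ a.2 _ b.2 (fun h => hab (Subtype.ext h))]
      simp
    · intro h
      exact absurd (Finset.mem_univ b) h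
  have h3 := hli.fintype_card_le_finrank
  rw [Fintype.card_coe, Module.finrank_fintype_fun_eq_card, Fintype.card_fin] at h3
  exact h3

theorem EMP : EMP_stmt := by
  constructor
  · intro k hk
    rw [Set.eq_empty_iff_forall_notMem]
    rintro x ⟨S, hS, h1, h2, _⟩
    have h3 := EMP_card S (fun a ha => by
      have := (h1 a ha).2
      simpa using this) h2
    omega
  · intro k hk
    rw [Set.eq_empty_iff_forall_notMem]
    rintro x ⟨S, hS, h1, h2, _⟩
    set e : Vec 8 := ![0, 0, 0, 0, 0, 0, 2, 2] with he
    have hee : dp e e = 8 := by rw [he]; decide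
    have hea : ∀ a ∈ S, dp e a = 0 ∧ dp a e = 0 := by
      intro a ha
      have h6 := (h1 a ha).2.1
      unfold dp
      rw [he]
      constructor
      · simp [Fin.sum_univ_eight]
        linear_combination 2 * h6
      · simp [Fin.sum_univ_eight]
        linear_combination 2 * h6
    have heS : e ∉ S := by
      intro h
      have h6 := (h1 e h).2.1
      rw [he] at h6
      revert h6
      decide
    have h3 := EMP_card (insert e S)
      (by
        intro a ha
        rcases Finset.mem_insert.1 ha with rfl | ha
        · exact hee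
        · have := (h1 a ha).2.2
          simpa using this)
      (by
        intro a ha b hb hab
        rcases Finset.mem_insert.1 ha with h | h <;> rcases Finset.mem_insert.1 hb with h' | h'
        · exact absurd (h.trans h'.symm) hab
        · rw [h]; exact (hea b h').1
        · rw [h']; exact (hea a h).2
        · exact h2 a h b h' hab)
    rw [Finset.card_insert_of_notMem heS] at h3
    omega

end Pool.Agent.SOL
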